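import Pool.Agent.H370.UL.Main

/-!
# Length-six unitriangular factorisation of `SL(n, ℤ)` for every `n ≥ 6`

For every `n ≥ 6` the group `SL(n, ℤ)` equals `U U⁻ U U⁻ U U⁻`, where `U` and `U⁻` are the groups
of upper and lower unitriangular integer matrices. So `n₀ ≤ 6`.

Sketch of the proof.
* A stable range argument, applied to the last row and column, gives `A ∈ U L (B ⊕ 1) U L` for some
  `B ∈ SL(2, ℤ)`, for every `n`.
* If `N B = C₂ C₁` with `N ∈ U L U L` and `Cᵢ = 1 + Yᵢ Xᵢ`, `1 + Xᵢ Yᵢ ∈ L U L U` (all `2 × 2`), then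
  `B ⊕ 1₄ ∈ L U L U`.
* Such a factorisation of `N B = [[a, q₂], [q₁, d]]` exists when `q₁`, `q₂` are primes congruent to
  `3` mod `4`, `(q₁ - 1) / 2` and `(q₂ - 1) / 2` are coprime and `|d|` is `3` mod `4`: by quadratic
  reciprocity exactly one of the Legendre symbols of `a` is `-1`, so there are exponents
  `k₁ + k₂ = 1` with `a ^ k₁ = 1` modulo one prime and `a ^ k₂ = -1` modulo the other one, and one
  splits `(N B) ^ k₁ (N B) ^ k₂`.
* Dirichlet's theorem, used twice, gives `N`.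
-/

namespace Pool.Agent.Results.MP_efa98f_al.LengthSixFromSix

/-- Upper unitriangular integer matrices: ones on the diagonal, zeros below it. -/
def UpperUni (n : ℕ) : Set (Matrix (Fin n) (Fin n) ℤ) :=
  {M | (∀ i, M i i = 1) ∧ ∀ i j, j < i → M i j = 0}

/-- Lower unitriangular integer matrices: ones on the diagonal, zeros above it. -/
def LowerUni (n : ℕ) : Set (Matrix (Fin n) (Fin n) ℤ) :=
  {M | (∀ i, M i i = 1) ∧ ∀ i j, i < j → M i j = 0}

/-- For every `n ≥ 6`, an integer `n × n` matrix has determinant one if and only if it is a product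
`u₁ l₁ u₂ l₂ u₃ l₃` with `uᵢ` upper unitriangular and `lᵢ` lower unitriangular. -/
theorem result (n : ℕ) (hn : 6 ≤ n) (A : Matrix (Fin n) (Fin n) ℤ) :
    A.det = 1 ↔ ∃ u₁ ∈ UpperUni n, ∃ l₁ ∈ LowerUni n, ∃ u₂ ∈ UpperUni n, ∃ l₂ ∈ LowerUni n,
      ∃ u₃ ∈ UpperUni n, ∃ l₃ ∈ LowerUni n, A = u₁ * l₁ * u₂ * l₂ * u₃ * l₃ := by
  constructor
  · intro hA
    obtain ⟨u, l, u', l', u'', l'', h1, h2, h3, h4, h5, h6, h⟩ :=
      Pool.Agent.H370.UL.six_all hn A hA
    exact ⟨u, h1.2, l, h2.2, u', h3.2, l', h4.2, u'', h5.2, l'', h6.2, h⟩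
  · rintro ⟨u, h1, l, h2, u', h3, l', h4, u'', h5, l'', h6, rfl⟩
    have hU : ∀ u ∈ UpperUni n, u.det = 1 := by
      intro u hu
      rw [Matrix.det_of_upperTriangular (fun i j hij => hu.2 i j hij)]
      simp [hu.1]
    have hL : ∀ u ∈ LowerUni n, u.det = 1 := by
      intro u hu
      rw [Matrix.det_of_lowerTriangular _ (fun i j hij => hu.2 i j hij)]
      simp [hu.1]
    rw [Matrix.det_mul, Matrix.det_mul, Matrix.det_mul, Matrix.det_mul, Matrix.det_mul, hU u h1,
      hL l h2, hU u' h3, hL l' h4, hU u'' h5, hL l'' h6]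
    norm_num

end Pool.Agent.Results.MP_efa98f_al.LengthSixFromSix
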